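import Mathlib
import Pool.Agent.H85.F.Viol

/-!
# The sharp slopes of Frey's inequality for almost all modular invariants

Frey asks for constants `κ`, `c`, depending only on the number field `K` and on `g`, such that
`h_F(A) ≤ κ log N_A + c` for all abelian varieties `A` over `K` of dimension `g`. We consider ALL
Weil restrictions `A = Res_{L/K} E`, where `L/K` is any extension of number fields, `g = [L : K]`,
and `E` is any elliptic curve over `L` (`A = E` for `L = K`), and normalise the slope: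
`Frey κ c K j` says that `h_F(A) ≤ (κ / [K : ℚ]) log N_A + c` for ALL curves `E` over `L` of
invariant `j`, that is, for a curve and all its twists. The height is the (unstable) Faltings height
of the Néron model over `O_K`; `12 [K : ℚ] h_F(A)` is the sum of the logarithm of the norm of the
minimal discriminant of `E`, of the archimedean terms and of `6 log (|D_L| / |D_K| ^ g)`. The
conductor is `N_A = N(f_E) (|D_L| / |D_K| ^ g) ^ 2` (Milne), where the part of `N(f_E)` prime to
six is `multNorm E * addNorm E`; the constants absorb the part above six.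

The theorem determines the slopes which are possible for almost all invariants:

* `κ = 1 / 3` is the threshold for almost all `j ∈ L`: for `κ < 1 / 3` the inequality holds for at
  most `M B ^ ((2 - ν) [L : ℚ])` of the invariants of height at most `B`, and for
  `1 / 3 < κ ≤ 1 / 2` it FAILS for at most `(M B ^ (expo κ + ε)) ^ [L : ℚ]` of them, with
  `expo κ < 2`; here `M` depends on `κ` and `ε` only and `c = C g` with an absolute constant `C`;
* `κ = 3 / 8` is the threshold for the integral invariants (the curves with potentially good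
  reduction everywhere): for `κ < 3 / 8` and any `c` the inequality holds for finitely many integral
  `j ∈ L` only, and for `κ > 3 / 8` it fails for at most
  `(M B ^ ((4 κ - 1) / (4 (3 κ - 1)) + ε)) ^ [L : ℚ]` of them, an exponent below `1`;
* for `1 / 3 ≤ κ < 3 / 8` the exponent `expo κ = 2 (1 - 2 κ) / (4 κ - 1)` of the exceptional set
  is optimal in every number field `L`, whatever the constant `c`.
-/

set_option autoImplicit false
set_option linter.unusedSectionVars false

namespace Pool.Agent.Results.MP_6babc4_nt.SharpSlopes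

open NumberField IsDedekindDomain

/-- the modular invariant `j(τ) = E₄(τ) ^ 3 / Δ(τ) = 1 / q + 744 + ⋯` -/
noncomputable def jInv (τ : UpperHalfPlane) : ℂ :=
  ModularForm.E₄ τ ^ 3 / ModularForm.discriminant τ

/-- the archimedean term `- log (|Δ(τ)| (Im τ) ^ 6)` of the Faltings height -/
noncomputable def arch (τ : UpperHalfPlane) : ℝ :=
  -Real.log (‖ModularForm.discriminant τ‖ * τ.im ^ 6)

/-- the points `τ w` have modular invariant `j` -/
def IsPeriod {L : Type} [Field L] [NumberField L] (j : L)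
    (τ : InfinitePlace L → UpperHalfPlane) : Prop := ∀ w, jInv (τ w) = w.embedding j

/-- the equation is integral at `v` -/
def IntAt {L : Type} [Field L] [NumberField L] (v : HeightOneSpectrum (𝓞 L))
    (E : WeierstrassCurve L) : Prop :=
  v.valuation L E.a₁ ≤ 1 ∧ v.valuation L E.a₂ ≤ 1 ∧ v.valuation L E.a₃ ≤ 1 ∧
    v.valuation L E.a₄ ≤ 1 ∧ v.valuation L E.a₆ ≤ 1

/-- the exponent of `v` in the minimal discriminant of the curve: the least valuation at `v` of the
discriminant of a Weierstrass equation of the curve over `L` which is integral at `v` -/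
noncomputable def discExp {L : Type} [Field L] [NumberField L] (v : HeightOneSpectrum (𝓞 L))
    (E : WeierstrassCurve L) : ℕ :=
  sInf {m : ℕ | ∃ C : WeierstrassCurve.VariableChange L, IntAt v (C • E) ∧
    v.valuation L (C • E).Δ = WithZero.exp (-(m : ℤ))}

/-- the Faltings height over `K` of the Weil restriction `A = Res_{L/K} E` of an elliptic curve `E`
over `L` (up to an absolute additive multiple of `[L : K]` which depends on the normalisation of the
metric only) -/
noncomputable def height (K : Type) [Field K] [NumberField K] {L : Type} [Field L] [NumberField L]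
    [Algebra K L] (E : WeierstrassCurve L) (τ : InfinitePlace L → UpperHalfPlane) : ℝ :=
  (∑ᶠ v : HeightOneSpectrum (𝓞 L), (discExp v E : ℝ) * Real.log (Ideal.absNorm v.asIdeal : ℝ) +
    ∑ w : InfinitePlace L, (w.mult : ℝ) * arch (τ w) +
    6 * (Real.log |(discr L : ℝ)| - Module.finrank K L * Real.log |(discr K : ℝ)|)) /
    (12 * Module.finrank ℚ K)

/-- good reduction at `v`: some Weierstrass equation over `L` of the curve is integral at `v` and
has a discriminant which is a unit at `v` -/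
def GoodAt {L : Type} [Field L] [NumberField L] (v : HeightOneSpectrum (𝓞 L))
    (E : WeierstrassCurve L) : Prop :=
  ∃ C : WeierstrassCurve.VariableChange L,
    v.valuation L (C • E).a₁ ≤ 1 ∧ v.valuation L (C • E).a₂ ≤ 1 ∧ v.valuation L (C • E).a₃ ≤ 1 ∧
    v.valuation L (C • E).a₄ ≤ 1 ∧ v.valuation L (C • E).a₆ ≤ 1 ∧ v.valuation L (C • E).Δ = 1

/-- semistable (good or multiplicative) reduction at `v`: some Weierstrass equation over `L` of the
curve is integral at `v` and its discriminant or its invariant `c₄` is a unit at `v` -/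
def SemistableAt {L : Type} [Field L] [NumberField L] (v : HeightOneSpectrum (𝓞 L))
    (E : WeierstrassCurve L) : Prop :=
  ∃ C : WeierstrassCurve.VariableChange L,
    v.valuation L (C • E).a₁ ≤ 1 ∧ v.valuation L (C • E).a₂ ≤ 1 ∧ v.valuation L (C • E).a₃ ≤ 1 ∧
    v.valuation L (C • E).a₄ ≤ 1 ∧ v.valuation L (C • E).a₆ ≤ 1 ∧
    (v.valuation L (C • E).Δ = 1 ∨ v.valuation L (C • E).c₄ = 1)

/-- the product of the norms of the primes of multiplicative reduction not dividing six -/
noncomputable def multNorm {L : Type} [Field L] [NumberField L] (E : WeierstrassCurve L) : ℝ :=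
  ∏ᶠ v ∈ {v : HeightOneSpectrum (𝓞 L) |
    ¬ GoodAt v E ∧ SemistableAt v E ∧ v.valuation L 6 = 1}, (Ideal.absNorm v.asIdeal : ℝ)

/-- the product of the squares of the norms of the primes of additive reduction not dividing six -/
noncomputable def addNorm {L : Type} [Field L] [NumberField L] (E : WeierstrassCurve L) : ℝ :=
  ∏ᶠ v ∈ {v : HeightOneSpectrum (𝓞 L) | ¬ SemistableAt v E ∧ v.valuation L 6 = 1},
    (Ideal.absNorm v.asIdeal : ℝ) ^ 2

/-- the norm `|D_L| / |D_K| ^ [L : K]` of the relative discriminant -/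
noncomputable def relDisc (K L : Type) [Field K] [NumberField K] [Field L] [NumberField L]
    [Algebra K L] : ℝ := |(discr L : ℝ)| / |(discr K : ℝ)| ^ Module.finrank K L

/-- the part `N` of the conductor of `A = Res_{L/K} E`: the part prime to six of the norm of the
conductor of `E`, times the square of the norm of the relative discriminant -/
noncomputable def cond (K : Type) [Field K] [NumberField K] {L : Type} [Field L] [NumberField L]
    [Algebra K L] (E : WeierstrassCurve L) : ℝ :=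
  multNorm E * addNorm E * relDisc K L ^ 2

/-- Frey's inequality `h_F(A) ≤ (κ / [K : ℚ]) log N + c` for the Weil restrictions `A` to `K` of
all elliptic curves over `L` of invariant `j` -/
def Frey (κ c : ℝ) (K : Type) [Field K] [NumberField K] {L : Type} [Field L] [NumberField L]
    [Algebra K L] (j : L) : Prop :=
  ∀ (E : WeierstrassCurve L) (τ : InfinitePlace L → UpperHalfPlane), E.Δ ≠ 0 →
    E.c₄ ^ 3 / E.Δ = j → IsPeriod j τ →
    height K E τ ≤ κ / Module.finrank ℚ K * Real.log (cond K E) + c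

/-- the elements of absolute height at most `B` -/
def Inv (L : Type) [Field L] [NumberField L] (B : ℝ) : Set L :=
  {j | Height.logHeight₁ j ≤ Module.finrank ℚ L * Real.log B}

/-- the exceptional set: the invariants in `L` of height at most `B` for which the inequality with
slope `κ` and constant `C [L : K]` fails for some subfield `K` of `L` -/
def Exc (L : Type) [Field L] [NumberField L] (κ C B : ℝ) : Set L :=
  {j ∈ Inv L B | ¬ ∀ (K : Type) [Field K] [NumberField K] [Algebra K L],
    Frey κ (C * Module.finrank K L) K j}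

/-- the exponent of the exceptional set -/
noncomputable def expo (κ : ℝ) : ℝ :=
  if κ ≤ 3 / 8 then 2 * (1 - 2 * κ) / (4 * κ - 1) else (8 * κ - 2) / (16 * κ - 5)

open Pool.Agent.Y733.UD Pool.Agent.Y733.LS Pool.Agent.W223.AK Pool.Agent.H691R3
open Pool.Agent.H85.F

section Aux

variable {K : Type} [Field K] [NumberField K]

theorem n_pos : (0 : ℝ) < Module.finrank ℚ K := by
  linarith [finrank_one_le K]

theorem ht_log (j : K) : Height.logHeight₁ j = ht j := by
  rw [logHeight_eq, ht_eq_Sa]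

theorem ncard_le {S : Set K} {b : ℝ} (h : ∀ E : Finset K, (E : Set K) ⊆ S → (E.card : ℝ) ≤ b) :
    S.Finite ∧ (S.ncard : ℝ) ≤ b := by
  have hfin : S.Finite := by
    by_contra hinf
    obtain ⟨t, ht, hcard⟩ := Set.Infinite.exists_subset_card_eq hinf (⌊b⌋₊ + 1)
    have h1 := h t ht
    rw [hcard] at h1
    have h2 := Nat.lt_floor_add_one b
    push_cast at h1
    linarith
  refine ⟨hfin, ?_⟩
  have h1 := h hfin.toFinset (by simp)
  rwa [← Set.ncard_eq_toFinset_card S hfin] at h1

theorem le_ncard {S : Set K} (hS : S.Finite) {b : ℝ} {E : Finset K} (hE : (E : Set K) ⊆ S)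
    (h : b ≤ E.card) : b ≤ (S.ncard : ℝ) := by
  refine h.trans ?_
  rw [← Set.ncard_coe_finset]
  exact_mod_cast Set.ncard_le_ncard hE hS

theorem fin_Inv (B : ℝ) : (Inv K B).Finite :=
  NumberField.finite_setOfPred_logHeight₁_le (K := K) (Module.finrank ℚ K * Real.log B)

/-- the height of the Weil restriction -/
theorem height_eq {L : Type} [Field L] [NumberField L] [Algebra K L] (E : WeierstrassCurve L)
    (τ : InfinitePlace L → UpperHalfPlane) :
    12 * (Module.finrank ℚ K : ℝ) * height K E τ = Pool.Agent.Y733.FF.discSum E +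
      ∑ w : InfinitePlace L, (w.mult : ℝ) * Pool.Agent.TH876.FH.arch (τ w) +
      3 * Real.log (relDisc K L ^ 2) := by
  have h0 : (12 * (Module.finrank ℚ K : ℝ)) ≠ 0 := by
    have := n_pos (K := K)
    positivity
  have h1 : (0 : ℝ) < |(discr L : ℝ)| := by linarith [one_le_disc L]
  have h2 : (0 : ℝ) < |(discr K : ℝ)| := by linarith [one_le_disc K]
  have h3 : 3 * Real.log (relDisc K L ^ 2) =
      6 * (Real.log |(discr L : ℝ)| - Module.finrank K L * Real.log |(discr K : ℝ)|) := by
    unfold relDisc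
    rw [Real.log_pow, Real.log_div h1.ne' (pow_pos h2 _).ne', Real.log_pow]
    push_cast
    ring
  rw [h3]
  unfold height
  rw [mul_div_cancel₀ _ h0]
  rfl

theorem log_addN_nonneg {L : Type} [Field L] [NumberField L] (E : WeierstrassCurve L)
    (hE : E.Δ ≠ 0) : 0 ≤ Real.log (Pool.Agent.Y733.FF.addN E) := by
  rw [Pool.Agent.Y733.FF.log_addN E hE]
  exact mul_nonneg (by norm_num) (finsum_nonneg fun v => Pool.Agent.Y733.FF.aw_nonneg v E)

/-- the conductor -/
theorem log_cond {L : Type} [Field L] [NumberField L] [Algebra K L] (E : WeierstrassCurve L)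
    (hE : E.Δ ≠ 0) : Real.log (cond K E) = Real.log (Pool.Agent.Y733.FF.multN E) +
      Real.log (Pool.Agent.Y733.FF.addN E) + Real.log (relDisc K L ^ 2) ∧
      0 ≤ Real.log (Pool.Agent.Y733.FF.multN E) ∧ 0 ≤ Real.log (Pool.Agent.Y733.FF.addN E) ∧
      0 ≤ Real.log (relDisc K L ^ 2) := by
  have hd1 : (0 : ℝ) < |(discr L : ℝ)| := by linarith [one_le_disc L]
  have hd2 : (0 : ℝ) < |(discr K : ℝ)| := by linarith [one_le_disc K]
  have hm : 0 < multNorm E := Pool.Agent.Y733.FF.multN_pos E hE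
  have ha : 0 < addNorm E := Pool.Agent.Y733.FF.addN_pos E hE
  have hr : 0 < relDisc K L := by
    unfold relDisc
    positivity
  have hlr : 0 ≤ Real.log (relDisc K L ^ 2) := by
    have h2 := Pool.Agent.Y733.FF.disc_ge K L
    unfold relDisc
    rw [Real.log_pow, Real.log_div hd1.ne' (pow_pos hd2 _).ne', Real.log_pow]
    have : 0 ≤ Real.log |(discr L : ℝ)| - Module.finrank K L * Real.log |(discr K : ℝ)| := by
      linarith
    push_cast
    positivity
  refine ⟨?_, Pool.Agent.Y733.FF.log_multN_nonneg E hE, log_addN_nonneg E hE, hlr⟩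
  unfold cond
  rw [Real.log_mul (mul_pos hm ha).ne' (pow_pos hr 2).ne', Real.log_mul hm.ne' ha.ne']
  rfl

/-- the inequality in terms of the sums -/
theorem frey_iff {L : Type} [Field L] [NumberField L] [Algebra K L] (E : WeierstrassCurve L)
    (τ : InfinitePlace L → UpperHalfPlane) (hE : E.Δ ≠ 0) (κ c : ℝ) :
    height K E τ ≤ κ / Module.finrank ℚ K * Real.log (cond K E) + c ↔
      Pool.Agent.Y733.FF.discSum E +
        ∑ w : InfinitePlace L, (w.mult : ℝ) * Pool.Agent.TH876.FH.arch (τ w) ≤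
      12 * κ * (Real.log (Pool.Agent.Y733.FF.multN E) + Real.log (Pool.Agent.Y733.FF.addN E)) +
        ((12 * κ - 3) * Real.log (relDisc K L ^ 2) + 12 * Module.finrank ℚ K * c) := by
  have hn := n_pos (K := K)
  have h1 := height_eq (K := K) E τ
  have h2 := (log_cond (K := K) E hE).1
  have h3 : 12 * (Module.finrank ℚ K : ℝ) *
      (κ / Module.finrank ℚ K * Real.log (cond K E) + c) =
      12 * κ * Real.log (cond K E) + 12 * Module.finrank ℚ K * c := by
    field_simp
  have h4 : (0 : ℝ) < 12 * Module.finrank ℚ K := by positivity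
  constructor
  · intro h
    have h5 := mul_le_mul_of_nonneg_left h h4.le
    rw [h1, h3, h2] at h5
    linarith
  · intro h
    refine le_of_mul_le_mul_left ?_ h4
    rw [h1, h3, h2]
    linarith

/-- a larger slope gives a weaker inequality -/
theorem frey_mono {L : Type} [Field L] [NumberField L] [Algebra K L] {κ κ' c : ℝ} (h : κ ≤ κ')
    {j : L} (hj : Frey κ c K j) : Frey κ' c K j := by
  intro E τ hE hEj hτ
  refine (hj E τ hE hEj hτ).trans ?_
  obtain ⟨h1, h2, h3, h4⟩ := log_cond (K := K) E hE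
  have h5 : 0 ≤ Real.log (cond K E) := by linarith
  have hn := n_pos (K := K)
  have h6 : κ / Module.finrank ℚ K ≤ κ' / Module.finrank ℚ K := div_le_div_of_nonneg_right h hn.le
  have := mul_le_mul_of_nonneg_right h6 h5
  linarith

/-- the inequality for all curves of invariant `j` -/
theorem ups_of_frey {L : Type} [Field L] [NumberField L] [Algebra K L] {κ c : ℝ} {j : L}
    (hj : Frey κ c K j) : Ups (12 * κ)
      ((12 * κ - 3) * Real.log (relDisc K L ^ 2) + 12 * Module.finrank ℚ K * c) j := by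
  intro E τ hE hEj hτ
  exact (frey_iff (K := K) E τ hE κ c).1 (hj E τ hE hEj hτ)

/-- the inequality over all subfields -/
theorem frey_of_sum {κ C : ℝ} (hκ : 1 / 3 ≤ κ) {L : Type} [Field L] [NumberField L] {j : L}
    (h : ∀ (E : WeierstrassCurve L) (τ : InfinitePlace L → UpperHalfPlane), E.Δ ≠ 0 →
      E.c₄ ^ 3 / E.Δ = j → Pool.Agent.TH876.FH.IsPeriod j τ → Pool.Agent.Y733.FF.discSum E +
        ∑ w : InfinitePlace L, (w.mult : ℝ) * Pool.Agent.TH876.FH.arch (τ w) ≤
      12 * κ * (Real.log (Pool.Agent.Y733.FF.multN E) + Real.log (Pool.Agent.Y733.FF.addN E)) +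
        C * Module.finrank ℚ L) (K : Type) [Field K] [NumberField K] [Algebra K L] :
    Frey κ (C / 12 * Module.finrank K L) K j := by
  intro E τ hE hEj hτ
  rw [frey_iff (K := K) E τ hE]
  have h1 := h E τ hE hEj hτ
  obtain ⟨-, -, -, h4⟩ := log_cond (K := K) E hE
  have hfd : FiniteDimensional K L := Module.Finite.of_restrictScalars_finite ℚ K L
  have hmul : (Module.finrank ℚ L : ℝ) = Module.finrank ℚ K * Module.finrank K L := by
    rw [← Module.finrank_mul_finrank ℚ K L]
    push_cast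
    rfl
  have h5 : 0 ≤ (12 * κ - 3) * Real.log (relDisc K L ^ 2) := mul_nonneg (by linarith) h4
  have h6 : 12 * (Module.finrank ℚ K : ℝ) * (C / 12 * Module.finrank K L) =
      C * Module.finrank ℚ L := by
    rw [hmul]
    ring
  rw [h6]
  linarith

/-- the height of `x = - j / 1728` -/
theorem ht_x (j : K) : ht (-j / 1728) ≤ ht j + Module.finrank ℚ K * Real.log 1728 := by
  have h1 : ht (1728 : K) = Module.finrank ℚ K * Real.log 1728 := by
    rw [ht_int (fun v => (fv_Na v).ofNat 1728), ← sum_mult, Finset.sum_mul]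
    refine Finset.sum_congr rfl fun w _ => ?_
    have e : w (1728 : K) = 1728 := by
      have := inf_nat (K := K) w 1728
      exact_mod_cast this
    rw [e, max_eq_left (by norm_num)]
  have h2 := Height.logHeight₁_mul_le j (-(1728 : K)⁻¹)
  have h3 : Height.logHeight₁ (-(1728 : K)⁻¹) = ht (1728 : K) := by
    rw [Height.logHeight₁_neg, Height.logHeight₁_inv, ht_log]
  rw [h3, ht_log, ht_log, h1] at h2
  have e : -j / 1728 = j * -(1728 : K)⁻¹ := by ring
  rw [e]
  exact h2

theorem mul_x (j : K) : -1728 * (-j / 1728) = j := by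
  field_simp

theorem pt_x {j : K} (h0 : j ≠ 0) (h1 : j ≠ 1728) : Pt (-j / 1728) := by
  refine ⟨div_ne_zero (neg_ne_zero.2 h0) (by norm_num), ?_⟩
  have e : -j / 1728 + 1 = (1728 - j) / 1728 := by
    field_simp
    ring
  rw [e]
  exact div_ne_zero (sub_ne_zero.2 h1.symm) (by norm_num)

theorem int_fv {j : K} (h : IsIntegral ℤ j) (v : Pr K) : fv v j ≤ 1 := by
  have := fv_int_le v (⟨j, h⟩ : 𝓞 K)
  exact this

/-- removing the two special invariants -/
theorem card_two (S : Finset K) [DecidableEq K] {b : ℝ} (hb : 1 ≤ b)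
    (h : ((S.filter fun j => j ≠ 0 ∧ j ≠ 1728).card : ℝ) ≤ b) : (S.card : ℝ) ≤ 3 * b := by
  have h2 : S ⊆ (S.filter fun j => j ≠ 0 ∧ j ≠ 1728) ∪ {0, 1728} := by
    intro j hj
    rw [Finset.mem_union, Finset.mem_filter, Finset.mem_insert, Finset.mem_singleton]
    by_cases h0 : j = 0
    · exact Or.inr (Or.inl h0)
    · by_cases h1 : j = 1728
      · exact Or.inr (Or.inr h1)
      · exact Or.inl ⟨hj, h0, h1⟩
  have h4 := (Finset.card_le_card h2).trans (Finset.card_union_le _ _)
  have h5 : ({0, 1728} : Finset K).card ≤ 2 := Finset.card_le_two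
  have h6 : (S.card : ℝ) ≤ ((S.filter fun j => j ≠ 0 ∧ j ≠ 1728).card : ℝ) + 2 := by
    exact_mod_cast h4.trans (Nat.add_le_add_left h5 _)
  linarith

theorem three_mul {n : ℕ} (hn : 1 ≤ n) (x : ℝ) :
    3 * Real.exp x ≤ Real.exp (n * Real.log 3 + x) := by
  rw [Real.exp_add]
  refine mul_le_mul_of_nonneg_right ?_ (Real.exp_pos _).le
  have h : (3 : ℝ) = Real.exp (Real.log 3) := (Real.exp_log (by norm_num)).symm
  have hn1 : (1 : ℝ) ≤ n := by exact_mod_cast hn
  have l3 : 0 ≤ Real.log 3 := Real.log_nonneg (by norm_num)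
  calc (3 : ℝ) = Real.exp (Real.log 3) := h
    _ ≤ Real.exp (n * Real.log 3) := Real.exp_le_exp.2 (by nlinarith)

end Aux

theorem expo_nonneg {κ : ℝ} (h1 : 1 / 3 ≤ κ) (h2 : κ ≤ 1 / 2) : 0 ≤ expo κ := by
  unfold expo
  split_ifs with h
  · exact div_nonneg (by linarith) (by linarith)
  · exact div_nonneg (by linarith) (by linarith)

/-- the count of the exceptional set -/
theorem exc_count : ∃ C : ℝ, 0 < C ∧ ∀ κ ε : ℝ, 1 / 3 ≤ κ → κ ≤ 1 / 2 → 0 < ε →
    ∃ A : ℝ, 0 ≤ A ∧ ∀ (L : Type) [Field L] [NumberField L] (X : ℝ) (S : Finset L), 0 ≤ X →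
      (∀ j ∈ S, ht j ≤ X ∧ ¬ ∀ (K : Type) [Field K] [NumberField K] [Algebra K L],
        Frey κ (C * Module.finrank K L) K j) →
      (S.card : ℝ) ≤ Real.exp (Module.finrank ℚ L * A + (expo κ + ε) * X) := by
  classical
  obtain ⟨C, hC, hfrey⟩ := frey_gen
  refine ⟨C / 12, by positivity, ?_⟩
  intro κ ε hκ1 hκ2 hε
  set η : ℝ := 24 * κ - 9 with hη
  have h12 : 12 * κ = (9 + η) / 2 := by rw [hη]; ring
  have l8 : 0 ≤ Real.log 1728 := Real.log_nonneg (by norm_num)
  have l3 : 0 ≤ Real.log 3 := Real.log_nonneg (by norm_num)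
  have he0 := expo_nonneg hκ1 hκ2
  -- the count of bad points
  have hbad : ∃ A : ℝ, 0 ≤ A ∧ ∀ (K : Type) [Field K] [NumberField K] (X : ℝ) (S : Finset K),
      0 ≤ X → (∀ x ∈ S, Pt x ∧ ht x ≤ X ∧
        ¬ (0 ≤ η ∧ η ≤ 3 ∧ ¬ BadP η x ∨ -1 ≤ η ∧ η ≤ 0 ∧ ¬ BadN η x)) →
        (S.card : ℝ) ≤ Real.exp (Module.finrank ℚ K * A + (expo κ + ε) * X) := by
    rcases le_or_gt κ (3 / 8) with h | h
    · have e : expo κ = (3 - η) / (3 + η) := by
        unfold expo
        rw [if_pos h, hη, div_eq_div_iff (by linarith) (by linarith)]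
        ring
      obtain ⟨A, hA, hc⟩ := badN_count (η := η) (ε := ε) (by linarith) (by linarith) hε
      refine ⟨A, hA, fun K _ _ X S hX hS => ?_⟩
      rw [e]
      refine hc K X S hX fun x hx => ?_
      obtain ⟨k1, k2, k3⟩ := hS x hx
      refine ⟨k1, k2, ?_⟩
      by_contra hcon
      exact k3 (Or.inr ⟨by linarith, by linarith, hcon⟩)
    · have e : expo κ = (3 + η) / (3 + 2 * η) := by
        unfold expo
        rw [if_neg (not_le.2 h), hη, div_eq_div_iff (by linarith) (by linarith)]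
        ring
      obtain ⟨A, hA, hc⟩ := badP_count (η := η) (ε := ε) (by linarith) hε
      refine ⟨A, hA, fun K _ _ X S hX hS => ?_⟩
      rw [e]
      refine hc K X S hX fun x hx => ?_
      obtain ⟨k1, k2, k3⟩ := hS x hx
      refine ⟨k1, k2, ?_⟩
      by_contra hcon
      exact k3 (Or.inl ⟨by linarith, by linarith, hcon⟩)
  obtain ⟨A, hA, hc⟩ := hbad
  refine ⟨A + (expo κ + ε) * Real.log 1728 + Real.log 3, by positivity, ?_⟩
  intro L _ _ X S hX hS
  set n := Module.finrank ℚ L with hn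
  have hn1 : 1 ≤ n := Module.finrank_pos
  set S0 := S.filter fun j => j ≠ 0 ∧ j ≠ 1728 with hS0
  have hinj : Set.InjOn (fun j : L => -j / 1728) (S0 : Set L) := by
    intro x _ y _ hxy
    have hxy' : -x / 1728 = -y / 1728 := hxy
    have := congrArg (fun z : L => -1728 * z) hxy'
    simp only [mul_x] at this
    exact this
  have h1 : ((S0.image fun j : L => -j / 1728).card : ℝ) ≤
      Real.exp (n * A + (expo κ + ε) * (X + n * Real.log 1728)) := by
    refine hc L _ _ (by positivity) ?_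
    intro x hx
    obtain ⟨j, hj, rfl⟩ := Finset.mem_image.1 hx
    obtain ⟨k1, k2, k3⟩ := Finset.mem_filter.1 hj
    obtain ⟨k4, k5⟩ := hS j k1
    refine ⟨pt_x k2 k3, (ht_x j).trans (by linarith), ?_⟩
    intro hcon
    apply k5
    intro K _ _ _
    refine frey_of_sum hκ1 ?_ K
    intro E τ hE hEj hτ
    rw [h12]
    rw [← hEj] at hτ
    exact hfrey L E τ (-j / 1728) η hE hτ (by rw [hEj, mul_x]) (pt_x k2 k3) hcon
  rw [Finset.card_image_of_injOn hinj] at h1
  have h2 : (1 : ℝ) ≤ Real.exp (n * A + (expo κ + ε) * (X + n * Real.log 1728)) :=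
    Real.one_le_exp (by positivity)
  refine (card_two S h2 h1).trans ((three_mul hn1 _).trans (le_of_eq ?_))
  congr 1
  ring

/-- the count of the integral exceptional set -/
theorem exc_int_count : ∃ C : ℝ, 0 < C ∧ ∀ κ ε : ℝ, 3 / 8 ≤ κ → κ ≤ 1 / 2 → 0 < ε →
    ∃ A : ℝ, 0 ≤ A ∧ ∀ (L : Type) [Field L] [NumberField L] (X : ℝ) (S : Finset L), 0 ≤ X →
      (∀ j ∈ S, IsIntegral ℤ j ∧ ht j ≤ X ∧
        ¬ ∀ (K : Type) [Field K] [NumberField K] [Algebra K L],
          Frey κ (C * Module.finrank K L) K j) →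
      (S.card : ℝ) ≤ Real.exp (Module.finrank ℚ L * A +
        ((4 * κ - 1) / (4 * (3 * κ - 1)) + ε) * X) := by
  classical
  obtain ⟨C, hC, hfrey⟩ := frey_int
  refine ⟨C / 12, by positivity, ?_⟩
  intro κ ε hκ1 hκ2 hε
  set η : ℝ := 24 * κ - 9 with hη
  have h12 : 12 * κ = (9 + η) / 2 := by rw [hη]; ring
  have l3 : 0 ≤ Real.log 3 := Real.log_nonneg (by norm_num)
  have e : (4 * κ - 1) / (4 * (3 * κ - 1)) = (3 + η) / (3 + 3 * η) := by
    rw [hη, div_eq_div_iff (by linarith) (by linarith)]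
    ring
  have he0 : 0 ≤ (4 * κ - 1) / (4 * (3 * κ - 1)) := div_nonneg (by linarith) (by linarith)
  obtain ⟨A, hA, hc⟩ := bad_count (η := η) (ε := ε) (by linarith) hε
  refine ⟨A + Real.log 3, by positivity, ?_⟩
  intro L _ _ X S hX hS
  set n := Module.finrank ℚ L with hn
  have hn1 : 1 ≤ n := Module.finrank_pos
  have h1 : ((S.filter fun j => j ≠ 0 ∧ j ≠ 1728).card : ℝ) ≤
      Real.exp (n * A + ((4 * κ - 1) / (4 * (3 * κ - 1)) + ε) * X) := by
    rw [e]
    refine hc L X _ hX ?_
    intro j hj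
    obtain ⟨k1, k2, k3⟩ := Finset.mem_filter.1 hj
    obtain ⟨k4, k5, k6⟩ := hS j k1
    refine ⟨int_fv k4, k2, sub_ne_zero.2 k3, k5, ?_⟩
    by_contra hcon
    apply k6
    intro K _ _ _
    refine frey_of_sum (by linarith) ?_ K
    intro E τ hE hEj hτ
    have hlm := Pool.Agent.Y733.FF.log_multN_nonneg E hE
    subst hEj
    have h5 := hfrey L E τ η hE hτ (by linarith) (by linarith) k2 (sub_ne_zero.2 k3)
      (int_fv k4) hcon
    rw [h12]
    have h6 : 0 ≤ (9 + η) / 2 * Real.log (Pool.Agent.Y733.FF.multN E) :=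
      mul_nonneg (by linarith) hlm
    linarith
  have h2 : (1 : ℝ) ≤ Real.exp (n * A + ((4 * κ - 1) / (4 * (3 * κ - 1)) + ε) * X) :=
    Real.one_le_exp (by positivity)
  refine (card_two S h2 h1).trans ((three_mul hn1 _).trans (le_of_eq ?_))
  congr 1
  ring

/-- sharpness for the integral invariants -/
theorem int_part (L K : Type) [Field L] [NumberField L] [Field K] [NumberField K] [Algebra K L]
    {κ : ℝ} (c : ℝ) (hκ : κ < 3 / 8) : {j : L | IsIntegral ℤ j ∧ Frey κ c K j}.Finite := by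
  set κ' : ℝ := max κ (1 / 3) with hκ'
  have h1 : κ ≤ κ' := le_max_left _ _
  have h2 : 1 / 3 ≤ κ' := le_max_right _ _
  have h3 : κ' < 3 / 8 := max_lt hκ (by norm_num)
  have e : (9 - (9 - 24 * κ')) / 2 = 12 * κ' := by ring
  obtain ⟨X, hX⟩ := int_fin L (t := 9 - 24 * κ') (by linarith) (by linarith)
    ((12 * κ' - 3) * Real.log (relDisc K L ^ 2) + 12 * Module.finrank ℚ K * c)
  have hfin : {x : L | Height.logHeight₁ x ≤ X}.Finite :=
    NumberField.finite_setOfPred_logHeight₁_le (K := L) X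
  refine (((hfin.image fun x => -1728 * x).union (Set.toFinite {0, 1728}))).subset ?_
  rintro j ⟨hj, hjF⟩
  by_cases h0 : j = 0
  · exact Or.inr (by simp [h0])
  by_cases h17 : j = 1728
  · exact Or.inr (by simp [h17])
  left
  refine ⟨-j / 1728, ?_, mul_x j⟩
  show Height.logHeight₁ _ ≤ X
  rw [ht_log]
  refine hX _ (pt_x h0 h17) ?_ ?_
  · rw [mul_x]
    exact int_fv hj
  · rw [mul_x, e]
    exact ups_of_frey (frey_mono h1 hjF)

/-- the exponent is optimal -/
theorem low_part (L K : Type) [Field L] [NumberField L] [Field K] [NumberField K] [Algebra K L]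
    {κ : ℝ} (c : ℝ) (h1 : 1 / 3 ≤ κ) (h2 : κ < 3 / 8) {ε : ℝ} (hε : 0 < ε) :
    ∃ B0 : ℝ, ∀ B : ℝ, B0 ≤ B → (B ^ (expo κ - ε)) ^ Module.finrank ℚ L ≤
      ({j ∈ Inv L B | ¬ Frey κ c K j}.ncard : ℝ) := by
  set ε' : ℝ := min ε 1 with hε'
  have e1 : 0 < ε' := lt_min hε one_pos
  have e2 : ε' ≤ 1 := min_le_right _ _
  have e3 : ε' ≤ ε := min_le_left _ _
  have e : (9 - (9 - 24 * κ)) / 2 = 12 * κ := by ring
  have eexp : expo κ = (3 + (9 - 24 * κ)) / (3 - (9 - 24 * κ)) := by
    unfold expo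
    rw [if_pos h2.le, div_eq_div_iff (by linarith) (by linarith)]
    ring
  obtain ⟨M0, hM0, hlow⟩ := low_viol L (t := 9 - 24 * κ) (ε := ε')
    ((12 * κ - 3) * Real.log (relDisc K L ^ 2) + 12 * Module.finrank ℚ K * c) (by linarith)
    (by linarith) e1 e2
  refine ⟨Real.exp M0, fun B hB => ?_⟩
  have hB1 : 1 ≤ B := (Real.one_le_exp hM0).trans hB
  have hB0 : 0 < B := by linarith
  have hlB : 0 ≤ Real.log B := Real.log_nonneg hB1
  have hMB : M0 ≤ Real.log B := by
    rw [Real.le_log_iff_exp_le hB0]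
    exact hB
  obtain ⟨S, hS, hcard⟩ := hlow (Real.log B) hMB
  have hn := n_pos (K := L)
  have hsub : (S : Set L) ⊆ {j ∈ Inv L B | ¬ Frey κ c K j} := by
    intro j hj
    obtain ⟨k1, k2⟩ := hS j (Finset.mem_coe.1 hj)
    refine ⟨?_, fun hcon => k2 ?_⟩
    · show Height.logHeight₁ j ≤ _
      rw [ht_log]
      exact k1
    · rw [e]
      exact ups_of_frey hcon
  refine le_ncard ((fin_Inv B).subset fun j hj => hj.1) hsub (le_trans ?_ hcard)
  rw [eexp, Real.rpow_def_of_pos hB0, ← Real.exp_nat_mul]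
  apply Real.exp_le_exp.2
  have h5 : 0 ≤ (Module.finrank ℚ L : ℝ) * Real.log B := by positivity
  have h6 := mul_le_mul_of_nonneg_left (sub_le_sub_left e3
    ((3 + (9 - 24 * κ)) / (3 - (9 - 24 * κ)))) h5
  linarith

/-- the inequality fails for almost all invariants -/
theorem fail_part (L K : Type) [Field L] [NumberField L] [Field K] [NumberField K] [Algebra K L]
    {κ : ℝ} (c : ℝ) (hκ : κ < 1 / 3) : ∃ ν M : ℝ, 0 < ν ∧ 0 < M ∧ ∀ B : ℝ, 1 ≤ B →
      ({j ∈ Inv L B | Frey κ c K j}.ncard : ℝ) ≤ M * B ^ ((2 - ν) * Module.finrank ℚ L) := by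
  classical
  set κ' : ℝ := max κ (5 / 16) with hκ'
  have h1 : κ ≤ κ' := le_max_left _ _
  have h2 : 5 / 16 ≤ κ' := le_max_right _ _
  have h3 : κ' < 1 / 3 := max_lt hκ (by norm_num)
  have e : (9 - (9 - 24 * κ')) / 2 = 12 * κ' := by ring
  obtain ⟨ν, M0, hν, hcnt⟩ := ups_count L (t := 9 - 24 * κ') (by linarith) (by linarith)
    ((12 * κ' - 3) * Real.log (relDisc K L ^ 2) + 12 * Module.finrank ℚ K * c)
  set n := Module.finrank ℚ L with hn
  have hn1 : 1 ≤ n := Module.finrank_pos
  have l8 : 0 ≤ Real.log 1728 := Real.log_nonneg (by norm_num)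
  set ν' : ℝ := min ν 1 with hν'
  have v1 : 0 < ν' := lt_min hν one_pos
  have v2 : ν' ≤ 1 := min_le_right _ _
  have v3 : ν' ≤ ν := min_le_left _ _
  refine ⟨ν', Real.exp (|M0| + 2 * (n * Real.log 1728) + n * Real.log 3), v1, Real.exp_pos _, ?_⟩
  intro B hB
  have hB0 : 0 < B := by linarith
  have hlB : 0 ≤ Real.log B := Real.log_nonneg hB
  refine (ncard_le fun S hS => ?_).2
  set X : ℝ := n * Real.log B + n * Real.log 1728 with hX
  have hX0 : 0 ≤ X := by positivity
  set S0 := S.filter fun j => j ≠ 0 ∧ j ≠ 1728 with hS0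
  have hinj : Set.InjOn (fun j : L => -j / 1728) (S0 : Set L) := by
    intro x _ y _ hxy
    have hxy' : -x / 1728 = -y / 1728 := hxy
    have := congrArg (fun z : L => -1728 * z) hxy'
    simp only [mul_x] at this
    exact this
  have h4 : ((S0.image fun j : L => -j / 1728).card : ℝ) ≤ Real.exp (|M0| + (2 - ν') * X) := by
    have h5 : ((S0.image fun j : L => -j / 1728).card : ℝ) ≤ Real.exp (M0 + (2 - ν) * X) := by
      refine hcnt X _ hX0 ?_
      intro x hx
      obtain ⟨j, hj, rfl⟩ := Finset.mem_image.1 hx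
      obtain ⟨k1, k2, k3⟩ := Finset.mem_filter.1 hj
      obtain ⟨k4, k5⟩ := hS (Finset.mem_coe.2 k1)
      have k4' : Height.logHeight₁ j ≤ n * Real.log B := k4
      rw [ht_log] at k4'
      refine ⟨pt_x k2 k3, (ht_x j).trans (by linarith), ?_⟩
      rw [mul_x, e]
      exact ups_of_frey (frey_mono h1 k5)
    refine h5.trans (Real.exp_le_exp.2 ?_)
    have h6 := le_abs_self M0
    have h7 := mul_le_mul_of_nonneg_right v3 hX0
    linarith
  rw [Finset.card_image_of_injOn hinj] at h4
  have h5 : (1 : ℝ) ≤ Real.exp (|M0| + (2 - ν') * X) :=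
    Real.one_le_exp (add_nonneg (abs_nonneg _) (mul_nonneg (by linarith) hX0))
  refine (card_two S h5 h4).trans ((three_mul hn1 _).trans ?_)
  rw [Real.rpow_def_of_pos hB0, ← Real.exp_add]
  apply Real.exp_le_exp.2
  have h6 : 0 ≤ ν' * (n * Real.log 1728) := by positivity
  rw [hX]
  linarith

theorem pow_form {n : ℕ} {M B α : ℝ} (hM : 0 < M) (hB : 0 < B) :
    (M * B ^ α) ^ n = Real.exp (n * Real.log M + α * (n * Real.log B)) := by
  rw [mul_pow, Real.exp_add, ← Real.log_pow, Real.exp_log (pow_pos hM n),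
    Real.rpow_def_of_pos hB, ← Real.exp_nat_mul]
  congr 2
  ring

/-- **The sharp slopes.** (1) There is an absolute constant `C` such that for `1 / 3 ≤ κ ≤ 1 / 2`,
in every number field `L`, Frey's inequality with slope `κ` and constant `C g` holds for the Weil
restrictions to all subfields of all curves of invariant `j`, for all `j ∈ L` of height at most `B`
outside a set of at most `(M B ^ (expo κ + ε)) ^ [L : ℚ]` elements, where `M` depends on `κ`, `ε`
only, and for `κ ≥ 3 / 8` for all integral `j` outside a set of at most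
`(M B ^ ((4 κ - 1) / (4 (3 κ - 1)) + ε)) ^ [L : ℚ]` elements. (2) For `K ⊆ L` and any constant `c`:
for `κ < 3 / 8` the inequality holds for finitely many integral `j ∈ L` only; for
`1 / 3 ≤ κ < 3 / 8` it fails for at least `B ^ ((expo κ - ε) [L : ℚ])` elements of height at most
`B`; for `κ < 1 / 3` it holds for at most `M B ^ ((2 - ν) [L : ℚ])` of them. -/
theorem result :
    (∃ C : ℝ, 0 < C ∧ ∀ κ ε : ℝ, 1 / 3 ≤ κ → κ ≤ 1 / 2 → 0 < ε → ∃ M : ℝ, 0 < M ∧
      ∀ (L : Type) [Field L] [NumberField L] (B : ℝ), 1 ≤ B → (Inv L B).Finite ∧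
        ((Exc L κ C B).ncard : ℝ) ≤ (M * B ^ (expo κ + ε)) ^ Module.finrank ℚ L ∧
        (3 / 8 ≤ κ → (({j ∈ Exc L κ C B | IsIntegral ℤ j}).ncard : ℝ) ≤
          (M * B ^ ((4 * κ - 1) / (4 * (3 * κ - 1)) + ε)) ^ Module.finrank ℚ L)) ∧
    ∀ (L K : Type) [Field L] [NumberField L] [Field K] [NumberField K] [Algebra K L] (κ c : ℝ),
      (κ < 3 / 8 → {j : L | IsIntegral ℤ j ∧ Frey κ c K j}.Finite) ∧
      (1 / 3 ≤ κ → κ < 3 / 8 → ∀ ε : ℝ, 0 < ε → ∃ B0 : ℝ, ∀ B : ℝ, B0 ≤ B →
        (B ^ (expo κ - ε)) ^ Module.finrank ℚ L ≤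
          ({j ∈ Inv L B | ¬ Frey κ c K j}.ncard : ℝ)) ∧
      (κ < 1 / 3 → ∃ ν M : ℝ, 0 < ν ∧ 0 < M ∧ ∀ B : ℝ, 1 ≤ B →
        ({j ∈ Inv L B | Frey κ c K j}.ncard : ℝ) ≤ M * B ^ ((2 - ν) * Module.finrank ℚ L)) := by
  refine ⟨?_, fun L K _ _ _ _ _ κ c => ⟨fun h => int_part L K c h,
    fun h1 h2 ε hε => low_part L K c h1 h2 hε, fun h => fail_part L K c h⟩⟩
  obtain ⟨C1, hC1, h1⟩ := exc_count
  obtain ⟨C2, hC2, h2⟩ := exc_int_count
  refine ⟨max C1 C2, lt_max_of_lt_left hC1, ?_⟩
  intro κ ε hκ1 hκ2 hε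
  -- a larger constant gives a weaker inequality
  have hmono : ∀ (C : ℝ), C ≤ max C1 C2 → ∀ (L : Type) [Field L] [NumberField L] (j : L),
      (∀ (K : Type) [Field K] [NumberField K] [Algebra K L],
        Frey κ (C * Module.finrank K L) K j) →
      (∀ (K : Type) [Field K] [NumberField K] [Algebra K L],
        Frey κ (max C1 C2 * Module.finrank K L) K j) := by
    intro C hC L _ _ j hj K _ _ _ E τ hE hEj hτ
    refine (hj K E τ hE hEj hτ).trans ?_
    have := mul_le_mul_of_nonneg_right hC (Nat.cast_nonneg (α := ℝ) (Module.finrank K L))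
    linarith
  obtain ⟨A1, hA1, c1⟩ := h1 κ ε hκ1 hκ2 hε
  have h2' : ∃ A : ℝ, 0 ≤ A ∧ (3 / 8 ≤ κ → ∀ (L : Type) [Field L] [NumberField L] (X : ℝ)
      (S : Finset L), 0 ≤ X → (∀ j ∈ S, IsIntegral ℤ j ∧ ht j ≤ X ∧
        ¬ ∀ (K : Type) [Field K] [NumberField K] [Algebra K L],
          Frey κ (C2 * Module.finrank K L) K j) →
      (S.card : ℝ) ≤ Real.exp (Module.finrank ℚ L * A +
        ((4 * κ - 1) / (4 * (3 * κ - 1)) + ε) * X)) := by
    by_cases h : 3 / 8 ≤ κ
    · obtain ⟨A, hA, hc⟩ := h2 κ ε h hκ2 hε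
      exact ⟨A, hA, fun _ => hc⟩
    · exact ⟨0, le_rfl, fun h' => absurd h' h⟩
  obtain ⟨A2, hA2, c2⟩ := h2'
  refine ⟨Real.exp (max A1 A2), Real.exp_pos _, ?_⟩
  intro L _ _ B hB
  have hB0 : 0 < B := by linarith
  have hlB : 0 ≤ Real.log B := Real.log_nonneg hB
  have hn := n_pos (K := L)
  refine ⟨fin_Inv B, ?_, fun h38 => ?_⟩
  · refine (ncard_le fun S hS => ?_).2
    rw [pow_form (Real.exp_pos _) hB0, Real.log_exp]
    refine (c1 L (Module.finrank ℚ L * Real.log B) S (by positivity) ?_).trans ?_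
    · intro j hj
      obtain ⟨k1, k2⟩ := hS (Finset.mem_coe.2 hj)
      have k1' : Height.logHeight₁ j ≤ Module.finrank ℚ L * Real.log B := k1
      rw [ht_log] at k1'
      exact ⟨k1', fun hcon => k2 (hmono C1 (le_max_left _ _) L j hcon)⟩
    · apply Real.exp_le_exp.2
      have := mul_le_mul_of_nonneg_left (le_max_left A1 A2) hn.le
      linarith
  · refine (ncard_le fun S hS => ?_).2
    rw [pow_form (Real.exp_pos _) hB0, Real.log_exp]
    refine (c2 h38 L (Module.finrank ℚ L * Real.log B) S (by positivity) ?_).trans ?_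
    · intro j hj
      obtain ⟨⟨k1, k2⟩, k3⟩ := hS (Finset.mem_coe.2 hj)
      have k1' : Height.logHeight₁ j ≤ Module.finrank ℚ L * Real.log B := k1
      rw [ht_log] at k1'
      exact ⟨k3, k1', fun hcon => k2 (hmono C2 (le_max_right _ _) L j hcon)⟩
    · apply Real.exp_le_exp.2
      have := mul_le_mul_of_nonneg_left (le_max_right A1 A2) hn.le
      linarith

end Pool.Agent.Results.MP_6babc4_nt.SharpSlopes
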